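import Pool.Agent.H53.MW.Targets

/-!
# A formula which hits the kernel covers the set by few clauses (row LKS of the board mwk)
-/

set_option autoImplicit false

namespace Pool.Agent.H31.MWK

open Finset Pool.Agent.H53.MW
open Pool.Agent.H53.MC (U Viol Ins Covers InR Bad)

theorem pf_LKS : T_LKS := by
  classical
  intro n M k g d s₀ θ m q 𝒦 B F hB hK h1
  unfold Lfc
  by_contra hcon
  apply hB
  refine ⟨KerS g d s₀ θ B, hK, h1, ?_⟩
  intro T' hT' hq
  by_contra h2
  push Not at h2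
  apply hcon
  refine ⟨T', hT', hq, ?_⟩
  intro x hx
  rw [Finset.mem_sdiff] at hx
  have h3 : ∃ A : Finset (Fin n), (A, x) ∈ KerS g d s₀ θ B := by
    by_contra h4
    push Not at h4
    apply hx.2
    unfold ErrS
    exact Finset.mem_filter.mpr ⟨hx.1, h4⟩
  obtain ⟨A, hAx⟩ := h3
  obtain ⟨c, hc, hI⟩ := h2 (A, x) hAx
  exact ⟨c, hc, hI.2⟩

end Pool.Agent.H31.MWK
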